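import Pool.Agent.Helper13.Cech
import Pool.Agent.Helper13.LCDef

/-!
# From the Laurent ring to localizations of `R ⧸ J`
-/

namespace Pool.Agent.Helper13

open MvPolynomial

/-- exponents as integer vectors -/
def castRep (d : ℕ) : (Fin d →₀ ℕ) →+ (Fin d → ℤ) where
  toFun m v := m v
  map_zero' := by ext; simp
  map_add' a b := by ext; simp

theorem castRep_injective (d : ℕ) : Function.Injective (castRep d) := by
  intro a b h
  ext v
  have := congrFun h v
  simpa [castRep] using this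

section Laur

variable (k : Type*) [Field k] (d : ℕ)

theorem toLaur_eq_rep : toLaur k d = AddMonoidAlgebra.mapDomainAlgHom k k (castRep d) := by
  apply MvPolynomial.algHom_ext
  intro v
  rw [toLaur, MvPolynomial.aeval_X, AddMonoidAlgebra.mapDomainAlgHom_apply]
  rw [MvPolynomial.X, ← MvPolynomial.single_eq_monomial]
  change _ = AddMonoidAlgebra.mapDomain _ _
  rw [AddMonoidAlgebra.mapDomain_single]
  unfold lx
  congr 1
  ext w
  simp only [castRep, AddMonoidHom.coe_mk, ZeroHom.coe_mk, Finsupp.single_apply, Pi.single_apply]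
  by_cases h : w = v
  · simp [h]
  · simp [h, Ne.symm h]

theorem toLaur_apply (r : MvPolynomial (Fin d) k) :
    toLaur k d r = AddMonoidAlgebra.mapDomain (castRep d) r := by
  rw [toLaur_eq_rep]; rfl

theorem toLaur_injective : Function.Injective (toLaur k d) := by
  intro a b h
  rw [toLaur_apply, toLaur_apply] at h
  exact AddMonoidAlgebra.mapDomain_injective (castRep_injective d) h

theorem toLaur_coeff_cast (r : MvPolynomial (Fin d) k) (m : Fin d →₀ ℕ) :
    (toLaur k d r).coeff (castRep d m) = MvPolynomial.coeff m r := by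
  rw [toLaur_apply]
  exact Finsupp.mapDomain_apply (castRep_injective d) _ _

theorem exists_of_toLaur_coeff {r : MvPolynomial (Fin d) k} {μ : Fin d → ℤ}
    (h : (toLaur k d r).coeff μ ≠ 0) : ∃ m, castRep d m = μ ∧ MvPolynomial.coeff m r ≠ 0 := by
  by_cases hμ : μ ∈ Set.range (castRep d)
  · obtain ⟨m, rfl⟩ := hμ
    rw [toLaur_coeff_cast] at h
    exact ⟨m, rfl, h⟩
  · exfalso
    apply h
    rw [toLaur_apply]
    exact Finsupp.mapDomain_of_notMem_range _ _ hμ

theorem toLaur_xprod (T : Finset (Fin d)) :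
    toLaur k d (xprod k d T) = ∏ v ∈ T, lx k d v := by
  rw [xprod, map_prod]
  exact Finset.prod_congr rfl (fun v _ => by rw [toLaur, MvPolynomial.aeval_X])

theorem lxprod_pow (T : Finset (Fin d)) (N : ℕ) :
    (∏ v ∈ T, lx k d v) ^ N =
      AddMonoidAlgebra.single (N • ∑ v ∈ T, (Pi.single v 1 : Fin d → ℤ)) 1 := by
  have : ∏ v ∈ T, lx k d v =
      AddMonoidAlgebra.single (∑ v ∈ T, (Pi.single v 1 : Fin d → ℤ)) (1 : k) := by
    classical
    induction T using Finset.induction_on with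
    | empty => simp [AddMonoidAlgebra.one_def]
    | insert a s ha ih =>
      rw [Finset.prod_insert ha, Finset.sum_insert ha, ih, lx, AddMonoidAlgebra.single_mul_single,
        one_mul]
  rw [this, AddMonoidAlgebra.single_pow, one_pow]

/-- the inverse of `lx_T` -/
theorem exists_lx_inv (T : Finset (Fin d)) :
    ∃ y : Laur k d, (∏ v ∈ T, lx k d v) * y = 1 := by
  refine ⟨AddMonoidAlgebra.single (-∑ v ∈ T, (Pi.single v 1 : Fin d → ℤ)) 1, ?_⟩
  have h := lxprod_pow k d T 1
  rw [pow_one, one_smul] at h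
  rw [h, AddMonoidAlgebra.single_mul_single, add_neg_cancel, one_mul, AddMonoidAlgebra.one_def]

variable {k d}

theorem mem_lat {J : Ideal (MvPolynomial (Fin d) k)} {p : Laur k d} :
    p ∈ lat k d J ↔ ∃ r ∈ J, toLaur k d r = p := Iff.rfl

theorem mem_fam {J : Ideal (MvPolynomial (Fin d) k)} {T : Finset (Fin d)} {p : Laur k d} :
    p ∈ fam k d J T ↔ ∃ N : ℕ, ∃ r ∈ J, (∏ v ∈ T, lx k d v) ^ N * p = toLaur k d r := by
  constructor
  · rintro ⟨N, hN⟩
    obtain ⟨r, hr, h⟩ := hN N le_rfl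
    exact ⟨N, r, hr, h.symm⟩
  · rintro ⟨N, r, hr, h⟩
    refine ⟨N, fun n hn => ?_⟩
    obtain ⟨m, rfl⟩ := Nat.exists_eq_add_of_le hn
    refine ⟨xprod k d T ^ m * r, J.mul_mem_left _ hr, ?_⟩
    change toLaur k d _ = _
    rw [map_mul, map_pow, toLaur_xprod, ← h, pow_add]
    ring

end Laur

section Rep

variable {k : Type*} [Field k] {d : ℕ}

/-- `x_T ^ N` as a member of the submonoid of powers -/
noncomputable def xpw (k : Type*) [Field k] (d : ℕ) (T : Finset (Fin d)) (N : ℕ) :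
    Submonoid.powers (xprod k d T) :=
  ⟨xprod k d T ^ N, Submonoid.pow_mem _ (Submonoid.mem_powers _) N⟩

theorem xpw_mul (T : Finset (Fin d)) (N N' : ℕ) :
    xpw k d T N * xpw k d T N' = xpw k d T (N + N') := by
  apply Subtype.ext
  change xprod k d T ^ N * xprod k d T ^ N' = xprod k d T ^ (N + N')
  rw [pow_add]

/-- `m` is the image of the Laurent polynomial `p` -/
def IsRep (J : Ideal (MvPolynomial (Fin d) k)) (T : Finset (Fin d)) (p : Laur k d)
    (m : LocAt k d (MvPolynomial (Fin d) k ⧸ J) T) : Prop :=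
  ∃ (N : ℕ) (r : MvPolynomial (Fin d) k), (∏ v ∈ T, lx k d v) ^ N * p = toLaur k d r ∧
    m = LocalizedModule.mk (Ideal.Quotient.mk J r) (xpw k d T N)

variable {J : Ideal (MvPolynomial (Fin d) k)} {T : Finset (Fin d)}

theorem cross {N N' : ℕ} {p : Laur k d} {r r' : MvPolynomial (Fin d) k}
    (h : (∏ v ∈ T, lx k d v) ^ N * p = toLaur k d r)
    (h' : (∏ v ∈ T, lx k d v) ^ N' * p = toLaur k d r') :
    xprod k d T ^ N' * r = xprod k d T ^ N * r' := by
  apply toLaur_injective k d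
  rw [map_mul, map_mul, map_pow, map_pow, toLaur_xprod, ← h, ← h']
  ring

theorem smul_mk_quot (N : ℕ) (r : MvPolynomial (Fin d) k) :
    (xpw k d T N) • (Ideal.Quotient.mk J r) = Ideal.Quotient.mk J (xprod k d T ^ N * r) := by
  rw [Submonoid.smul_def]
  rfl

theorem IsRep.eq_mk {p : Laur k d} {m : LocAt k d (MvPolynomial (Fin d) k ⧸ J) T}
    (h : IsRep J T p m) {N : ℕ} {r : MvPolynomial (Fin d) k}
    (hr : (∏ v ∈ T, lx k d v) ^ N * p = toLaur k d r) :
    m = LocalizedModule.mk (Ideal.Quotient.mk J r) (xpw k d T N) := by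
  obtain ⟨N', r', h', rfl⟩ := h
  rw [LocalizedModule.mk_eq]
  refine ⟨1, ?_⟩
  rw [one_smul, one_smul, smul_mk_quot, smul_mk_quot, cross h' hr]

theorem IsRep.unique {p : Laur k d} {m m' : LocAt k d (MvPolynomial (Fin d) k ⧸ J) T}
    (h : IsRep J T p m) (h' : IsRep J T p m') : m = m' := by
  obtain ⟨N', r', h', rfl⟩ := h'
  exact h.eq_mk h'

theorem IsRep.exists {p : Laur k d} (h : p ∈ fam k d ⊤ T) : ∃ m, IsRep J T p m := by
  obtain ⟨N, r, -, h⟩ := mem_fam.1 h
  exact ⟨_, N, r, h, rfl⟩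

theorem IsRep.mem {p : Laur k d} {m : LocAt k d (MvPolynomial (Fin d) k ⧸ J) T}
    (h : IsRep J T p m) : p ∈ fam k d ⊤ T := by
  obtain ⟨N, r, h, -⟩ := h
  exact mem_fam.2 ⟨N, r, trivial, h⟩

theorem IsRep.add {p p' : Laur k d} {m m' : LocAt k d (MvPolynomial (Fin d) k ⧸ J) T}
    (h : IsRep J T p m) (h' : IsRep J T p' m') : IsRep J T (p + p') (m + m') := by
  obtain ⟨N, r, h, rfl⟩ := h
  obtain ⟨N', r', h', rfl⟩ := h'
  refine ⟨N + N', xprod k d T ^ N' * r + xprod k d T ^ N * r', ?_, ?_⟩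
  · rw [map_add, map_mul, map_mul, map_pow, map_pow, toLaur_xprod, ← h, ← h']
    ring
  · rw [LocalizedModule.mk_add_mk, smul_mk_quot, smul_mk_quot, ← map_add, xpw_mul]

theorem IsRep.smul (c : k) {p : Laur k d} {m : LocAt k d (MvPolynomial (Fin d) k ⧸ J) T}
    (h : IsRep J T p m) : IsRep J T (c • p) (c • m) := by
  obtain ⟨N, r, h, rfl⟩ := h
  refine ⟨N, c • r, ?_, ?_⟩
  · rw [mul_smul_comm, h, map_smul]
  · rw [LocalizedModule.smul'_mk]
    rfl

theorem IsRep.smulR (n : ℕ) {p : Laur k d} {m : LocAt k d (MvPolynomial (Fin d) k ⧸ J) T}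
    (h : IsRep J T p m) : IsRep J T (((-1 : k) ^ n) • p)
      (((-1 : MvPolynomial (Fin d) k) ^ n) • m) := by
  have h1 := h.smul ((-1 : k) ^ n)
  have h2 : ((-1 : MvPolynomial (Fin d) k) ^ n) • m = ((-1 : k) ^ n) • m := by
    rcases Nat.even_or_odd n with hn | hn
    · rw [hn.neg_one_pow, hn.neg_one_pow, one_smul, one_smul]
    · rw [hn.neg_one_pow, hn.neg_one_pow, neg_smul, neg_smul, one_smul, one_smul]
  rw [h2]
  exact h1

theorem IsRep.zero : IsRep J T (0 : Laur k d) 0 :=
  ⟨0, 0, by simp, by rw [map_zero, LocalizedModule.zero_mk]⟩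

theorem IsRep.sub {p p' : Laur k d} {m m' : LocAt k d (MvPolynomial (Fin d) k ⧸ J) T}
    (h : IsRep J T p m) (h' : IsRep J T p' m') : IsRep J T (p - p') (m - m') := by
  have := h.add (h'.smul (-1))
  rwa [neg_smul, neg_smul, one_smul, one_smul, ← sub_eq_add_neg, ← sub_eq_add_neg] at this

theorem IsRep.sum {ι : Type*} (s : Finset ι) {p : ι → Laur k d}
    {m : ι → LocAt k d (MvPolynomial (Fin d) k ⧸ J) T} (h : ∀ i ∈ s, IsRep J T (p i) (m i)) :
    IsRep J T (∑ i ∈ s, p i) (∑ i ∈ s, m i) := by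
  classical
  induction s using Finset.induction_on with
  | empty => simpa using IsRep.zero
  | insert a s ha ih =>
    rw [Finset.sum_insert ha, Finset.sum_insert ha]
    exact (h a (Finset.mem_insert_self a s)).add
      (ih (fun i hi => h i (Finset.mem_insert_of_mem hi)))

theorem IsRep.surj (m : LocAt k d (MvPolynomial (Fin d) k ⧸ J) T) : ∃ p, IsRep J T p m := by
  induction m using LocalizedModule.induction_on with
  | h m s =>
    obtain ⟨_, N, rfl⟩ := s
    obtain ⟨r, rfl⟩ := Ideal.Quotient.mk_surjective m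
    obtain ⟨y, hy⟩ := exists_lx_inv k d T
    refine ⟨y ^ N * toLaur k d r, N, r, ?_, rfl⟩
    rw [← mul_assoc, ← mul_pow, hy, one_pow, one_mul]

theorem IsRep.eq_zero_iff {p : Laur k d} {m : LocAt k d (MvPolynomial (Fin d) k ⧸ J) T}
    (h : IsRep J T p m) : m = 0 ↔ p ∈ fam k d J T := by
  constructor
  · intro hm
    obtain ⟨N, r, h, rfl⟩ := h
    rw [← LocalizedModule.zero_mk (1 : Submonoid.powers (xprod k d T)), LocalizedModule.mk_eq]
      at hm
    obtain ⟨⟨_, M, rfl⟩, hu⟩ := hm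
    rw [one_smul, smul_zero, smul_zero] at hu
    have h2 : Ideal.Quotient.mk J (xprod k d T ^ M * r) = 0 := by
      rw [← smul_mk_quot (T := T)]; exact hu
    rw [Ideal.Quotient.eq_zero_iff_mem] at h2
    refine mem_fam.2 ⟨M + N, _, h2, ?_⟩
    rw [map_mul, map_pow, toLaur_xprod, ← h]
    ring
  · intro hp
    obtain ⟨N, r, hr, h'⟩ := mem_fam.1 hp
    rw [h.eq_mk h', Ideal.Quotient.eq_zero_iff_mem.2 hr, LocalizedModule.zero_mk]

theorem res_mk (M : Type*) [AddCommGroup M] [Module (MvPolynomial (Fin d) k) M]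
    {S T : Finset (Fin d)} (h : S ⊆ T) (m : M) (N : ℕ) :
    res k d M h (LocalizedModule.mk m (xpw k d S N)) =
      LocalizedModule.mk ((xprod k d (T \ S)) ^ N • m) (xpw k d T N) := by
  have hu := (isUnit_of_subset k d M h (xpw k d S N))
  have hinj := ((Module.End.isUnit_iff _).1 hu).1
  apply hinj
  rw [Module.algebraMap_end_apply, Module.algebraMap_end_apply]
  rw [← map_smul, LocalizedModule.smul'_mk, LocalizedModule.smul'_mk]
  have h1 : LocalizedModule.mk ((xpw k d S N : MvPolynomial (Fin d) k) • m) (xpw k d S N) =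
      LocalizedModule.mk m 1 := LocalizedModule.mk_cancel _ _
  have h2 : ((xpw k d S N : MvPolynomial (Fin d) k)) • (xprod k d (T \ S)) ^ N • m =
      (xpw k d T N) • m := by
    rw [← mul_smul, Submonoid.smul_def]
    congr 1
    change xprod k d S ^ N * xprod k d (T \ S) ^ N = xprod k d T ^ N
    rw [← mul_pow, xprod, xprod, xprod, mul_comm, Finset.prod_sdiff h]
  rw [h1, h2, LocalizedModule.mk_cancel, res, LocalizedModule.lift_mk_one]
  rfl

theorem IsRep.res {S : Finset (Fin d)} (hS : S ⊆ T) {p : Laur k d}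
    {m : LocAt k d (MvPolynomial (Fin d) k ⧸ J) S} (h : IsRep J S p m) :
    IsRep J T p (Pool.Agent.Helper13.res k d _ hS m) := by
  obtain ⟨N, r, h, rfl⟩ := h
  refine ⟨N, xprod k d (T \ S) ^ N * r, ?_, ?_⟩
  · rw [map_mul, map_pow, toLaur_xprod, ← h, ← Finset.prod_sdiff hS]
    ring
  · rw [res_mk]
    rfl

end Rep

end Pool.Agent.Helper13
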